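import Pool.Agent.Helper42.SQ.GDefs2

/-!
# RV, block WEIL: the elements of the saturation of an ideal at a point

The local bound: a form `F` of degree `m` for which `X j ^ e * F` is in `I + ∑ α ∈ A, ∏ i, J i ^ α i` for all `j`, with a suitable `e`,
is at most `C |x| ^ m ∏ i, μ i ^ α i` for one `α ∈ A`, where `μ i` is the maximum of the `|g(x)| / |x| ^ deg g`, for the generators
`g` of `J i`.
-/

set_option autoImplicit false

namespace Pool.Agent.RV

open NumberField MvPolynomial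
open Pool.Agent.Helper64.Vojta (Pl nv)
open Pool.Agent.SQ (mxn QSG)

universe u

section

variable {k : Type u} [Field k] [NumberField k]

/-- (a power of) an absolute value of an extension `L` of `k`, which extends the normalised absolute value at `v` -/
structure Av (v : Pl k) {L : Type u} [Field L] [Algebra k L] (M : L → ℝ) : Prop where
  zero : M 0 = 0
  pos : ∀ x, x ≠ 0 → 0 < M x
  mul : ∀ x y, M (x * y) = M x * M y
  add : ∀ x y, M (x + y) ≤ 4 * max (M x) (M y)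
  ext : ∀ c : k, M (algebraMap k L c) = nv v c

theorem av_of_qsg {G : Type*} [Group G] [Fintype G] {L : Type u} [Field L] [Algebra k L] {s : G →* (L ≃ₐ[k] L)}
    {N : Pl k → L → ℝ} (h : QSG s N) (v : Pl k) : Av v (N v) :=
  ⟨h.zero v, h.pos v, h.mul v, h.add v, h.ext v⟩

namespace Av

variable {v : Pl k} {L : Type u} [Field L] [Algebra k L] {M : L → ℝ}

theorem nonneg (h : Av v M) (x : L) : 0 ≤ M x := by
  by_cases hx : x = 0
  · rw [hx, h.zero]
  · exact (h.pos x hx).le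

theorem one (h : Av v M) : M 1 = 1 := by
  have h1 := h.ext 1
  rwa [map_one, Pool.Agent.Helper64.Vojta.nv_one] at h1

theorem pow (h : Av v M) (x : L) (n : ℕ) : M (x ^ n) = M x ^ n := by
  induction n with
  | zero => rw [pow_zero, pow_zero, h.one]
  | succ n ih => rw [pow_succ, pow_succ, h.mul, ih]

omit [Field L] in
theorem le_mxn {ι : Type*} [Finite ι] (X : ι → L) (a : ι) : M (X a) ≤ mxn M X :=
  le_ciSup (Set.finite_range fun a => M (X a)).bddAbove a

end Av

/-- gauges: functions of an extension, an absolute value and a point -/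
abbrev Gau (k : Type u) [Field k] (n : ℕ) : Type (u + 1) :=
  ∀ (L : Type u) [Field L] [Algebra k L], (L → ℝ) → (Fin n → L) → ℝ

/-- admissible points: coordinates at most one, on `X` -/
structure Adm {n : ℕ} (v : Pl k) (I : Ideal (MvPolynomial (Fin n) k)) (L : Type u) [Field L] [Algebra k L] (M : L → ℝ)
    (y : Fin n → L) : Prop where
  av : Av v M
  le : ∀ j, M (y j) ≤ 1
  van : ∀ p ∈ I, aeval y p = 0

/-- a polynomial is bounded -/
theorem bdd {n : ℕ} (v : Pl k) (I : Ideal (MvPolynomial (Fin n) k)) (p : MvPolynomial (Fin n) k) :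
    ∃ C : ℝ, 0 ≤ C ∧ ∀ (L : Type u) [Field L] [Algebra k L] (M : L → ℝ) (y : Fin n → L), Adm v I L M y →
      M (aeval y p) ≤ C := by
  induction p using MvPolynomial.induction_on with
  | C c =>
    refine ⟨nv v c, Pool.Agent.Helper64.Vojta.nv_nonneg v c, fun L _ _ M y h => ?_⟩
    rw [aeval_C, h.av.ext]
  | add p q hp hq =>
    obtain ⟨C, hC, h1⟩ := hp
    obtain ⟨D, hD, h2⟩ := hq
    refine ⟨4 * (C + D), by positivity, fun L _ _ M y h => ?_⟩
    rw [map_add]
    refine (h.av.add _ _).trans (mul_le_mul_of_nonneg_left (max_le ?_ ?_) (by norm_num))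
    · have := h1 L M y h
      linarith
    · have := h2 L M y h
      linarith
  | mul_X p j hp =>
    obtain ⟨C, hC, h1⟩ := hp
    refine ⟨C, hC, fun L _ _ M y h => ?_⟩
    rw [map_mul, aeval_X, h.av.mul]
    calc _ ≤ C * 1 := mul_le_mul (h1 L M y h) (h.le j) (h.av.nonneg _) hC
      _ = C := mul_one C

/-- the ideal of the polynomials which are `O(τ)` -/
def SI {n : ℕ} (v : Pl k) (I : Ideal (MvPolynomial (Fin n) k)) (τ : Gau k n)
    (hτ : ∀ (L : Type u) [Field L] [Algebra k L] (M : L → ℝ) (y : Fin n → L), Adm v I L M y → 0 ≤ τ L M y) :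
    Ideal (MvPolynomial (Fin n) k) where
  carrier := {p | ∃ C : ℝ, 0 ≤ C ∧ ∀ (L : Type u) [Field L] [Algebra k L] (M : L → ℝ) (y : Fin n → L), Adm v I L M y →
      M (aeval y p) ≤ C * τ L M y}
  zero_mem' := ⟨0, le_rfl, fun L _ _ M y h => by rw [map_zero, h.av.zero, zero_mul]⟩
  add_mem' := by
    rintro p q ⟨C, hC, h1⟩ ⟨D, hD, h2⟩
    refine ⟨4 * (C + D), by positivity, fun L _ _ M y h => ?_⟩
    rw [map_add]
    have h3 := hτ L M y h
    have h4 := h1 L M y h
    have h5 := h2 L M y h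
    have h6 : 0 ≤ C * τ L M y := mul_nonneg hC h3
    have h7 : 0 ≤ D * τ L M y := mul_nonneg hD h3
    refine (h.av.add _ _).trans ?_
    have h8 : max (M (aeval y p)) (M (aeval y q)) ≤ C * τ L M y + D * τ L M y := max_le (by linarith) (by linarith)
    linarith
  smul_mem' := by
    rintro a p ⟨C, hC, h1⟩
    obtain ⟨D, hD, h2⟩ := bdd v I a
    refine ⟨D * C, by positivity, fun L _ _ M y h => ?_⟩
    rw [smul_eq_mul, map_mul, h.av.mul, mul_assoc]
    exact mul_le_mul (h2 L M y h) (h1 L M y h) (h.av.nonneg _) hD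

theorem mem_SI {n : ℕ} {v : Pl k} {I : Ideal (MvPolynomial (Fin n) k)} {τ : Gau k n}
    {hτ : ∀ (L : Type u) [Field L] [Algebra k L] (M : L → ℝ) (y : Fin n → L), Adm v I L M y → 0 ≤ τ L M y}
    {p : MvPolynomial (Fin n) k} : p ∈ SI v I τ hτ ↔ ∃ C : ℝ, 0 ≤ C ∧ ∀ (L : Type u) [Field L] [Algebra k L] (M : L → ℝ)
      (y : Fin n → L), Adm v I L M y → M (aeval y p) ≤ C * τ L M y := Iff.rfl

/-- products -/
theorem SI_mul {n : ℕ} {v : Pl k} {I : Ideal (MvPolynomial (Fin n) k)} {τ τ' τ'' : Gau k n} {hτ hτ' hτ''}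
    (he : ∀ (L : Type u) [Field L] [Algebra k L] (M : L → ℝ) (y : Fin n → L), Adm v I L M y →
      τ'' L M y = τ L M y * τ' L M y) : SI v I τ hτ * SI v I τ' hτ' ≤ SI v I τ'' hτ'' := by
  rw [Ideal.mul_le]
  rintro p ⟨C, hC, h1⟩ q ⟨D, hD, h2⟩
  refine ⟨C * D, by positivity, fun L _ _ M y h => ?_⟩
  rw [map_mul, h.av.mul, he L M y h]
  calc _ ≤ C * τ L M y * (D * τ' L M y) := mul_le_mul (h1 L M y h) (h2 L M y h) (h.av.nonneg _)
        (mul_nonneg hC (hτ L M y h))
    _ = _ := by ring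

theorem SI_mono {n : ℕ} {v : Pl k} {I : Ideal (MvPolynomial (Fin n) k)} {τ τ' : Gau k n} {hτ hτ'}
    (he : ∀ (L : Type u) [Field L] [Algebra k L] (M : L → ℝ) (y : Fin n → L), Adm v I L M y → τ L M y ≤ τ' L M y) :
    SI v I τ hτ ≤ SI v I τ' hτ' := by
  rintro p ⟨C, hC, h1⟩
  exact ⟨C, hC, fun L _ _ M y h => (h1 L M y h).trans (mul_le_mul_of_nonneg_left (he L M y h) hC)⟩

/-- the maximum of the absolute values of the generators, in terms of `|x|` -/
noncomputable def mu {n : ℕ} {s : Type} (δ : s → ℕ) (g : s → MvPolynomial (Fin n) k) {L : Type u} [Field L] [Algebra k L]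
    (M : L → ℝ) (x : Fin n → L) : ℝ :=
  ⨆ a, M (aeval x (g a)) / mxn M x ^ δ a

/-- the same for a point with maximum one -/
noncomputable def mu1 {n : ℕ} {s : Type} (g : s → MvPolynomial (Fin n) k) {L : Type u} [Field L] [Algebra k L]
    (M : L → ℝ) (x : Fin n → L) : ℝ :=
  ⨆ a, M (aeval x (g a))

theorem mu1_nonneg {n : ℕ} {s : Type} {v : Pl k} (g : s → MvPolynomial (Fin n) k) {L : Type u} [Field L] [Algebra k L]
    {M : L → ℝ} (h : Av v M) (x : Fin n → L) : 0 ≤ mu1 g M x :=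
  Real.iSup_nonneg fun _ => h.nonneg _

theorem span_le {n : ℕ} {s : Type} [Finite s] {v : Pl k} {I : Ideal (MvPolynomial (Fin n) k)} (g : s → MvPolynomial (Fin n) k)
    {hτ} : Ideal.span (Set.range g) ≤ SI v I (fun _ _ _ M y => mu1 g M y) hτ := by
  rw [Ideal.span_le]
  rintro _ ⟨a, rfl⟩
  refine ⟨1, zero_le_one, fun L _ _ M y h => ?_⟩
  rw [one_mul]
  exact le_ciSup (f := fun a => M (aeval y (g a))) (Set.finite_range _).bddAbove a

theorem span_pow_le {n : ℕ} {s : Type} [Finite s] {v : Pl k} {I : Ideal (MvPolynomial (Fin n) k)}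
    (g : s → MvPolynomial (Fin n) k) (e : ℕ) :
    Ideal.span (Set.range g) ^ e ≤ SI v I (fun _ _ _ M y => mu1 g M y ^ e)
      fun _ _ _ _ y h => pow_nonneg (mu1_nonneg g h.av y) e := by
  induction e with
  | zero =>
    intro p _
    obtain ⟨C, hC, h1⟩ := bdd v I p
    exact ⟨C, hC, fun L _ _ M y h => by simpa using h1 L M y h⟩
  | succ e ih =>
    rw [pow_succ]
    refine (Ideal.mul_mono ih (span_le g (hτ := fun _ _ _ _ y h => mu1_nonneg g h.av y))).trans (SI_mul ?_)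
    intro L _ _ M y h
    rw [pow_succ]

theorem prod_le {n : ℕ} {ι : Type*} (T : Finset ι) {s : ι → Type} [∀ i, Finite (s i)] {v : Pl k}
    {I : Ideal (MvPolynomial (Fin n) k)} (g : ∀ i, s i → MvPolynomial (Fin n) k) (α : ι → ℕ) :
    ∏ i ∈ T, Ideal.span (Set.range (g i)) ^ α i ≤ SI v I (fun _ _ _ M y => ∏ i ∈ T, mu1 (g i) M y ^ α i)
      fun _ _ _ _ y h => Finset.prod_nonneg fun i _ => pow_nonneg (mu1_nonneg (g i) h.av y) _ := by
  classical
  induction T using Finset.induction_on with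
  | empty =>
    intro p _
    obtain ⟨C, hC, h1⟩ := bdd v I p
    exact ⟨C, hC, fun L _ _ M y h => by simpa using h1 L M y h⟩
  | insert a T ha ih =>
    rw [Finset.prod_insert ha]
    refine (Ideal.mul_mono (span_pow_le (g a) (α a)) ih).trans (SI_mul ?_)
    intro L _ _ M y h
    rw [Finset.prod_insert ha]

/-- the sum over a set of exponents: finitely many are enough -/
theorem iSup_bound {n q : ℕ} {s : Fin q → Type} [∀ i, Finite (s i)] {v : Pl k}
    {I : Ideal (MvPolynomial (Fin n) k)} (g : ∀ i, s i → MvPolynomial (Fin n) k) (A : Set (Fin q → ℕ))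
    (p : MvPolynomial (Fin n) k) (hp : p ∈ I ⊔ ⨆ α ∈ A, ∏ i, Ideal.span (Set.range (g i)) ^ α i) :
    ∃ (C : ℝ) (T : Finset (Fin q → ℕ)), 0 ≤ C ∧ (T : Set (Fin q → ℕ)) ⊆ A ∧ ∀ (L : Type u) [Field L] [Algebra k L]
      (M : L → ℝ) (y : Fin n → L), Adm v I L M y → M (aeval y p) ≤ C * ∑ α ∈ T, ∏ i, mu1 (g i) M y ^ α i := by
  classical
  obtain ⟨a, ha, b, hb, rfl⟩ := Submodule.mem_sup.1 hp
  let R : MvPolynomial (Fin n) k → Prop := fun b => ∃ (C : ℝ) (T : Finset (Fin q → ℕ)), 0 ≤ C ∧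
      (T : Set (Fin q → ℕ)) ⊆ A ∧ ∀ (L : Type u) [Field L] [Algebra k L]
      (M : L → ℝ) (y : Fin n → L), Adm v I L M y → M (aeval y b) ≤ C * ∑ α ∈ T, ∏ i, mu1 (g i) M y ^ α i
  have key : ∀ b ∈ ⨆ α ∈ A, ∏ i, Ideal.span (Set.range (g i)) ^ α i, R b := by
    intro b hb
    rw [iSup_subtype'] at hb
    refine Submodule.iSup_induction (motive := R)
      (fun α : A => ∏ i, Ideal.span (Set.range (g i)) ^ (α : Fin q → ℕ) i) hb ?_ ?_ ?_
    · rintro ⟨α, hα⟩ x hx
      obtain ⟨C, hC, h1⟩ := prod_le (v := v) (I := I) Finset.univ g α hx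
      refine ⟨C, {α}, hC, by simpa using hα, fun L _ _ M y h => ?_⟩
      rw [Finset.sum_singleton]
      exact h1 L M y h
    · exact ⟨0, ∅, le_rfl, by simp, fun L _ _ M y h => by rw [map_zero, h.av.zero]; simp⟩
    · rintro x y ⟨C, T, hC, hT, h1⟩ ⟨D, T', hD, hT', h2⟩
      refine ⟨4 * (C + D), T ∪ T', by positivity, by rw [Finset.coe_union]; exact Set.union_subset hT hT',
        fun L _ _ M z h => ?_⟩
      have hn : ∀ α : Fin q → ℕ, 0 ≤ ∏ i, mu1 (g i) M z ^ α i := fun α =>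
        Finset.prod_nonneg fun i _ => pow_nonneg (mu1_nonneg (g i) h.av z) _
      have h3 : ∑ α ∈ T, ∏ i, mu1 (g i) M z ^ α i ≤ ∑ α ∈ T ∪ T', ∏ i, mu1 (g i) M z ^ α i :=
        Finset.sum_le_sum_of_subset_of_nonneg Finset.subset_union_left fun α _ _ => hn α
      have h4 : ∑ α ∈ T', ∏ i, mu1 (g i) M z ^ α i ≤ ∑ α ∈ T ∪ T', ∏ i, mu1 (g i) M z ^ α i :=
        Finset.sum_le_sum_of_subset_of_nonneg Finset.subset_union_right fun α _ _ => hn α
      have h5 : 0 ≤ ∑ α ∈ T ∪ T', ∏ i, mu1 (g i) M z ^ α i := Finset.sum_nonneg fun α _ => hn α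
      have h6 := (h1 L M z h).trans (mul_le_mul_of_nonneg_left h3 hC)
      have h7 := (h2 L M z h).trans (mul_le_mul_of_nonneg_left h4 hD)
      have h8 : 0 ≤ C * ∑ α ∈ T ∪ T', ∏ i, mu1 (g i) M z ^ α i := mul_nonneg hC h5
      have h9 : 0 ≤ D * ∑ α ∈ T ∪ T', ∏ i, mu1 (g i) M z ^ α i := mul_nonneg hD h5
      rw [map_add]
      refine (h.av.add _ _).trans ?_
      have h10 : max (M (aeval z x)) (M (aeval z y)) ≤ C * ∑ α ∈ T ∪ T', ∏ i, mu1 (g i) M z ^ α i +
          D * ∑ α ∈ T ∪ T', ∏ i, mu1 (g i) M z ^ α i := max_le (by linarith) (by linarith)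
      linarith
  obtain ⟨C, T, hC, hT, h1⟩ := key b hb
  refine ⟨C, T, hC, hT, fun L _ _ M y h => ?_⟩
  rw [map_add, h.van a ha, zero_add]
  exact h1 L M y h

/-- A sum of products which is positive is at most a multiple of one of them. -/
theorem le_one_term {ι : Type*} (T : Finset ι) (f : ι → ℝ) (h : 0 < ∑ i ∈ T, f i) :
    ∃ i ∈ T, ∑ j ∈ T, f j ≤ T.card * f i := by
  have hne : T.Nonempty := by
    rcases T.eq_empty_or_nonempty with rfl | h1
    · simp at h
    · exact h1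
  obtain ⟨i, hi, h1⟩ := T.exists_max_image f hne
  refine ⟨i, hi, ?_⟩
  have h2 := Finset.sum_le_card_nsmul T f (f i) h1
  rwa [nsmul_eq_mul] at h2

/-- The maxima are bounded. -/
theorem mu_le {n : ℕ} {s : Type} [Finite s] (v : Pl k) (I : Ideal (MvPolynomial (Fin n) k)) (hI : ∀ p ∈ I, ∀ e, homogeneousComponent e p ∈ I)
    (δ : s → ℕ) (g : s → MvPolynomial (Fin n) k) (hg : ∀ a, (g a).IsHomogeneous (δ a)) :
    ∃ C : ℝ, 0 ≤ C ∧ ∀ (L : Type u) [Field L] [Algebra k L] (M : L → ℝ), Av v M → ∀ x : Fin n → L, (∃ j, x j ≠ 0) →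
      (∀ p ∈ I, aeval x p = 0) → mu δ g M x ≤ C := by
  classical
  choose C hC0 hC using fun a => bdd v I (g a)
  obtain ⟨B, hB⟩ : ∃ B : ℝ, ∀ a, C a ≤ B := by
    obtain ⟨B, hB⟩ := (Set.finite_range C).bddAbove
    exact ⟨B, fun j => hB ⟨j, rfl⟩⟩
  refine ⟨max B 0, le_max_right _ _, fun L _ _ M h x hx hxI => ?_⟩
  obtain ⟨j0, hj0⟩ := hx
  have : Nonempty (Fin n) := ⟨j0⟩
  obtain ⟨j, hj⟩ : ∃ j, M (x j) = mxn M x := exists_eq_ciSup_of_finite
  have hm0 : 0 < mxn M x := (h.pos _ hj0).trans_le (Av.le_mxn x j0)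
  have hxj : x j ≠ 0 := fun h2 => by rw [← hj, h2, h.zero] at hm0; exact lt_irrefl _ hm0
  set y : Fin n → L := fun i => (x j)⁻¹ * x i with hy
  have hsc : ∀ (p : MvPolynomial (Fin n) k) (d : ℕ), p.IsHomogeneous d → aeval y p = ((x j)⁻¹) ^ d * aeval x p := by
    intro p d hp
    rw [aeval_def, aeval_def, eval₂_eq', eval₂_eq', Finset.mul_sum]
    refine Finset.sum_congr rfl fun c hc => ?_
    have h2 : ∑ i, c i = d := by
      have h3 := hp (mem_support_iff.1 hc)
      rw [Finsupp.weight_apply, Finsupp.sum_fintype _ _ (by simp)] at h3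
      simpa using h3
    have h3 : ∏ i, y i ^ c i = ((x j)⁻¹) ^ d * ∏ i, x i ^ c i := by
      rw [← h2, ← Finset.prod_pow_eq_pow_sum, ← Finset.prod_mul_distrib]
      exact Finset.prod_congr rfl fun i _ => by rw [hy, mul_pow]
    rw [h3]
    ring
  have hinv : M (x j)⁻¹ = (mxn M x)⁻¹ := by
    have h2 : M ((x j)⁻¹) * M (x j) = 1 := by rw [← h.mul, inv_mul_cancel₀ hxj, h.one]
    rw [hj] at h2
    exact eq_inv_of_mul_eq_one_left h2
  have hvan : ∀ p ∈ I, aeval y p = 0 := by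
    intro p hp
    rw [← sum_homogeneousComponent p, map_sum]
    refine Finset.sum_eq_zero fun d _ => ?_
    rw [hsc _ d (homogeneousComponent_isHomogeneous d p), hxI _ (hI p hp d), mul_zero]
  have hadm : Adm v I L M y := by
    refine ⟨h, fun i => ?_, hvan⟩
    rw [hy, h.mul, hinv, inv_mul_le_iff₀ hm0, mul_one]
    exact Av.le_mxn x i
  refine Real.iSup_le (fun a => ?_) (le_max_right _ _)
  have h1 := hC a L M y hadm
  rw [hsc _ _ (hg a), h.mul, h.pow, hinv, inv_pow, ← div_eq_inv_mul] at h1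
  exact h1.trans ((hB a).trans (le_max_left _ _))

/-- The local bound. -/
theorem weil {n q m : ℕ} {s : Fin q → Type} [∀ i, Finite (s i)] (v : Pl k) (I : Ideal (MvPolynomial (Fin n) k))
    (hI : ∀ p ∈ I, ∀ e, homogeneousComponent e p ∈ I)
    (δ : ∀ i, s i → ℕ) (g : ∀ i, s i → MvPolynomial (Fin n) k) (hg : ∀ i a, (g i a).IsHomogeneous (δ i a))
    (A : Set (Fin q → ℕ)) (F : MvPolynomial (Fin n) k) (hF : F.IsHomogeneous m)
    (hsat : ∀ j, ∃ e, X j ^ e * F ∈ I ⊔ ⨆ α ∈ A, ∏ i, Ideal.span (Set.range (g i)) ^ α i) :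
    ∃ (C : ℝ) (B : Finset (Fin q → ℕ)), (B : Set (Fin q → ℕ)) ⊆ A ∧ ∀ (L : Type u) [Field L] [Algebra k L] (M : L → ℝ), Av v M →
      ∀ x : Fin n → L, (∃ j, x j ≠ 0) → (∀ p ∈ I, aeval x p = 0) → aeval x F ≠ 0 →
      ∃ α ∈ B, (∀ i, α i ≠ 0 → 0 < mu (δ i) (g i) M x) ∧
      Real.log (M (aeval x F)) ≤ m * Real.log (mxn M x) + ∑ i, α i * Real.log (mu (δ i) (g i) M x) + C := by
  classical
  choose e he using hsat
  choose C T hC hT h1 using fun j => iSup_bound (v := v) g A _ (he j)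
  obtain ⟨B, hB⟩ : ∃ B : ℝ, ∀ j, Real.log (C j * (T j).card) ≤ B := by
    obtain ⟨B, hB⟩ := (Set.finite_range fun j => Real.log (C j * (T j).card)).bddAbove
    exact ⟨B, fun j => hB ⟨j, rfl⟩⟩
  refine ⟨B, Finset.univ.biUnion T, fun α hα => ?_, fun L _ _ M h x hx hxI hFx => ?_⟩
  · obtain ⟨j, -, h2⟩ := Finset.mem_biUnion.1 (Finset.mem_coe.1 hα)
    exact hT j h2
  obtain ⟨j0, hj0⟩ := hx
  have : Nonempty (Fin n) := ⟨j0⟩
  -- the coordinate of maximal size
  obtain ⟨j, hj⟩ : ∃ j, M (x j) = mxn M x := exists_eq_ciSup_of_finite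
  have hm0 : 0 < mxn M x := (h.pos _ hj0).trans_le (Av.le_mxn x j0)
  have hxj : x j ≠ 0 := fun h2 => by rw [← hj, h2, h.zero] at hm0; exact lt_irrefl _ hm0
  set y : Fin n → L := fun i => (x j)⁻¹ * x i with hy
  have hsc : ∀ (p : MvPolynomial (Fin n) k) (d : ℕ), p.IsHomogeneous d → aeval y p = ((x j)⁻¹) ^ d * aeval x p := by
    intro p d hp
    rw [aeval_def, aeval_def, eval₂_eq', eval₂_eq', Finset.mul_sum]
    refine Finset.sum_congr rfl fun c hc => ?_
    have h2 : ∑ i, c i = d := by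
      have h3 := hp (mem_support_iff.1 hc)
      rw [Finsupp.weight_apply, Finsupp.sum_fintype _ _ (by simp)] at h3
      simpa using h3
    have h3 : ∏ i, y i ^ c i = ((x j)⁻¹) ^ d * ∏ i, x i ^ c i := by
      rw [← h2, ← Finset.prod_pow_eq_pow_sum, ← Finset.prod_mul_distrib]
      exact Finset.prod_congr rfl fun i _ => by rw [hy, mul_pow]
    rw [h3]
    ring
  have hinv : M (x j)⁻¹ = (mxn M x)⁻¹ := by
    have h2 : M ((x j)⁻¹) * M (x j) = 1 := by rw [← h.mul, inv_mul_cancel₀ hxj, h.one]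
    rw [hj] at h2
    exact eq_inv_of_mul_eq_one_left h2
  have hvan : ∀ p ∈ I, aeval y p = 0 := by
    intro p hp
    rw [← sum_homogeneousComponent p, map_sum]
    refine Finset.sum_eq_zero fun d _ => ?_
    rw [hsc _ d (homogeneousComponent_isHomogeneous d p), hxI _ (hI p hp d), mul_zero]
  have hadm : Adm v I L M y := by
    refine ⟨h, fun i => ?_, hvan⟩
    rw [hy, h.mul, hinv, inv_mul_le_iff₀ hm0, mul_one]
    exact Av.le_mxn x i
  have hmu : ∀ i, mu1 (g i) M y = mu (δ i) (g i) M x := by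
    intro i
    unfold mu1 mu
    congr 1
    funext a
    rw [hsc _ _ (hg i a), h.mul, h.pow, hinv, inv_pow, div_eq_inv_mul]
  have hyj : y j = 1 := by rw [hy]; exact inv_mul_cancel₀ hxj
  have h2 := h1 j L M y hadm
  rw [map_mul, map_pow, aeval_X, hyj, one_pow, one_mul] at h2
  have hFy : M (aeval y F) = (mxn M x)⁻¹ ^ m * M (aeval x F) := by rw [hsc F m hF, h.mul, h.pow, hinv]
  have hFp : 0 < M (aeval y F) := by
    rw [hFy]
    have := h.pos _ hFx
    positivity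
  have hs0 : 0 < ∑ α ∈ T j, ∏ i, mu1 (g i) M y ^ α i := by
    by_contra h3
    have h4 : C j * ∑ α ∈ T j, ∏ i, mu1 (g i) M y ^ α i ≤ 0 := mul_nonpos_of_nonneg_of_nonpos (hC j) (not_lt.1 h3)
    linarith
  have hC0 : 0 < C j := by
    rcases (hC j).lt_or_eq with h3 | h3
    · exact h3
    · rw [← h3, zero_mul] at h2
      linarith
  obtain ⟨α, hα, h3⟩ := le_one_term _ _ hs0
  have hcard : 0 < ((T j).card : ℝ) := by
    have : 0 < (T j).card := Finset.card_pos.2 ⟨α, hα⟩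
    exact_mod_cast this
  have hpα : 0 < ∏ i, mu1 (g i) M y ^ α i := by
    by_contra h4
    have h5 : ((T j).card : ℝ) * ∏ i, mu1 (g i) M y ^ α i ≤ 0 := mul_nonpos_of_nonneg_of_nonpos hcard.le (not_lt.1 h4)
    linarith
  have hpi : ∀ i, α i ≠ 0 → 0 < mu1 (g i) M y := by
    intro i hi
    refine lt_of_le_of_ne (mu1_nonneg (g i) h y) fun h4 => hpα.ne' ?_
    exact Finset.prod_eq_zero (Finset.mem_univ i) (by rw [← h4, zero_pow hi])
  refine ⟨α, Finset.mem_biUnion.2 ⟨j, Finset.mem_univ j, hα⟩, fun i hi => hmu i ▸ hpi i hi, ?_⟩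
  have h4 : M (aeval y F) ≤ C j * (T j).card * ∏ i, mu1 (g i) M y ^ α i := by
    calc _ ≤ _ := h2
      _ ≤ C j * ((T j).card * ∏ i, mu1 (g i) M y ^ α i) := mul_le_mul_of_nonneg_left h3 (hC j)
      _ = _ := by ring
  have h5 := Real.log_le_log hFp h4
  have h6 : Real.log (∏ i, mu1 (g i) M y ^ α i) = ∑ i, α i * Real.log (mu (δ i) (g i) M x) := by
    rw [Real.log_prod]
    · exact Finset.sum_congr rfl fun i _ => by rw [Real.log_pow, hmu i]
    · intro i _
      by_cases hi : α i = 0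
      · rw [hi, pow_zero]
        exact one_ne_zero
      · exact (pow_pos (hpi i hi) _).ne'
  rw [Real.log_mul (by positivity) hpα.ne', h6, hFy, Real.log_mul (by positivity) (h.pos _ hFx).ne', inv_pow,
    Real.log_inv, Real.log_pow] at h5
  have h7 := hB j
  linarith

end

end Pool.Agent.RV
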