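import Pool.Agent.Helper80.RV.Defs
import Pool.Agent.Helper72.RV.Weil

/-!
# RV7 (WEIL)
-/

set_option autoImplicit false
set_option linter.unusedSectionVars false
set_option linter.unusedVariables false

namespace Pool.Agent.SQ.RV

open NumberField Filter Module MvPolynomial
open Pool.Agent.Helper64.Vojta (Pl nv sn above)
open Pool.Agent.V2
open Pool.Agent.Chart (fld dg crd hgt)
open Pool.Agent.ZS (HQ mem_HQ)

universe u

variable {k : Type u} [Field k] [NumberField k] {G : Type} [Group G] [Fintype G] {N e : ℕ}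

private theorem gamJ_mu72 {L : Type u} [Field L] [Algebra k L] (s : G →* (L ≃ₐ[k] L)) (M : Pl k → L → ℝ)
    (y : Fin (N + 1) → L) (d : Fin e → ℕ) (f : Fin e → MvPolynomial (Fin (N + 1)) k) (v : Pl k) (g : G) :
    Real.log (Pool.Agent.RV.mu d f (M v) fun l => s g (y l)) = -gamJ s M y d f v g := by
  unfold gamJ Pool.Agent.RV.mu
  rw [neg_neg]
  congr 1
  congr 1
  funext a
  rw [← aeval_s63]

/-- RV7 -/
theorem weil {q : ℕ} {D : SqG k G} (y : ∀ a, Fin (N + 1) → D.L a) (hy : Ptg D y) (P : Ideal (MvPolynomial (Fin (N + 1)) k))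
    (hP : ∀ p ∈ P, ∀ m, homogeneousComponent m p ∈ P) (hyP : ∀ a, ∀ p ∈ P, aeval (y a) p = 0) (d : Fin q → Fin e → ℕ)
    (f : Fin q → Fin e → MvPolynomial (Fin (N + 1)) k) (hf : ∀ i j, (f i j).IsHomogeneous (d i j)) (v : Pl k) (g : G)
    (T : Finset (Fin q)) (hyf : ∀ a, ∀ i ∈ T, ∃ j, aeval (y a) (f i j) ≠ 0) (L : Fin q → ℝ)
    (hL : ∀ i ∈ T, LB D (fun a => gamJ (D.s a) (D.N a) (y a) (d i) (f i) v g) (L i)) (u : Fin q → ℕ) (hu : ∀ i ∉ T, u i = 0)
    (c : ℝ) (hc : 0 ≤ c) (hcL : ∀ i ∈ T, c * u i ≤ L i) (m x : ℕ) (p : MvPolynomial (Fin (N + 1)) k) (hp : p.IsHomogeneous m)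
    (hpx : p ∈ fil P (idl f) u x) :
    p ∈ vanI D y ∨ LB D (fun a => gam (D.s a) (D.N a) (y a) m p v g) (c * x) := by
  classical
  by_cases hv : p ∈ vanI D y
  · exact Or.inl hv
  refine Or.inr fun η hη => ?_
  have hne : ∀ᶠ a in (D.U : Filter ℕ), aeval (y a) p ≠ 0 := Ultrafilter.eventually_not.2 hv
  obtain ⟨E, hE⟩ := hpx
  have hsat : ∀ j, ∃ t, X j ^ t * p ∈ P ⊔ ⨆ α ∈ {b : Fin q → ℕ | x ≤ ∑ i, u i * b i}, ∏ i, Ideal.span (Set.range (f i)) ^ α i := by
    intro j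
    refine ⟨E, ?_⟩
    have h1 := hE j
    have h2 : wid (idl f) u x = ⨆ α ∈ {b : Fin q → ℕ | x ≤ ∑ i, u i * b i}, ∏ i, Ideal.span (Set.range (f i)) ^ α i :=
      iSup_subtype
    rwa [h2] at h1
  obtain ⟨C, B, hB, h1⟩ := Pool.Agent.RV.weil v P hP d f hf _ p hp hsat
  choose Cm hCm0 hCm using fun i => Pool.Agent.RV.mu_le.{u} v P hP (d i) (f i) (hf i)
  obtain ⟨K, hK⟩ : ∃ K : ℕ, ∀ α ∈ B, ∀ i, α i ≤ K := by
    refine ⟨B.sup fun α => Finset.univ.sup α, fun α hα i => ?_⟩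
    exact (Finset.le_sup (f := α) (Finset.mem_univ i)).trans (Finset.le_sup (f := fun α : Fin q → ℕ => Finset.univ.sup α) hα)
  set η' : ℝ := η / (2 * (q * K + 1)) with hη'
  have hη'0 : 0 < η' := by positivity
  have hqη : (q : ℝ) * K * η' ≤ η / 2 := by
    rw [hη', mul_div_assoc', div_le_div_iff₀ (by positivity) (by norm_num)]
    nlinarith [hη.le, mul_nonneg (Nat.cast_nonneg (α := ℝ) q) (Nat.cast_nonneg (α := ℝ) K)]
  have hgam : ∀ᶠ a in (D.U : Filter ℕ), ∀ i ∈ T, (L i - η') * D.H a ≤ gamJ (D.s a) (D.N a) (y a) (d i) (f i) v g := by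
    have : ∀ i, ∀ᶠ a in (D.U : Filter ℕ), i ∈ T → (L i - η') * D.H a ≤ gamJ (D.s a) (D.N a) (y a) (d i) (f i) v g := by
      intro i
      by_cases hi : i ∈ T
      · filter_upwards [hL i hi η' hη'0] with a ha _
        exact ha
      · exact Eventually.of_forall fun a ha => absurd ha hi
    exact (eventually_all (ι := Fin q)).2 this
  have hH : ∀ᶠ a in (D.U : Filter ℕ), max 0 (2 / η * (C + K * ∑ i, Real.log (max 1 (Cm i)))) ≤ D.H a :=
    D.H1.eventually (eventually_ge_atTop _)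
  filter_upwards [hne, hgam, hH] with a ha1 ha2 ha3
  obtain ⟨j0, hj0⟩ := hy.1 a
  have hx0 : ∃ j, (fun l => D.s a g (y a l)) j ≠ 0 := ⟨j0, by simp [hj0]⟩
  have hxP : ∀ p ∈ P, aeval (fun l => D.s a g (y a l)) p = 0 := fun p hp => by
    rw [← aeval_s63, hyP a p hp, map_zero]
  have hxp : aeval (fun l => D.s a g (y a l)) p ≠ 0 := by
    rw [← aeval_s63]
    simpa using ha1
  have hav := Pool.Agent.RV.av_of_qsg (D.qs a) v
  obtain ⟨α, hα, h2, h3⟩ := h1 (D.L a) (D.N a v) hav (fun l => D.s a g (y a l)) hx0 hxP hxp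
  have hH0 : 0 ≤ D.H a := (le_max_left _ _).trans ha3
  have h4 : ∀ i, (α i : ℝ) * Real.log (Pool.Agent.RV.mu (d i) (f i) (D.N a v) fun l => D.s a g (y a l)) ≤
      (if i ∈ T then -(α i * ((L i - η') * D.H a)) else 0) + K * Real.log (max 1 (Cm i)) := by
    intro i
    have h5 : 0 ≤ Real.log (max 1 (Cm i)) := Real.log_nonneg (le_max_left _ _)
    by_cases hi : i ∈ T
    · rw [if_pos hi, gamJ_mu72]
      have h6 := mul_le_mul_of_nonneg_left (ha2 i hi) (Nat.cast_nonneg (α := ℝ) (α i))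
      have h7 : 0 ≤ (K : ℝ) * Real.log (max 1 (Cm i)) := mul_nonneg (Nat.cast_nonneg K) h5
      linarith
    · rw [if_neg hi, zero_add]
      by_cases h0 : α i = 0
      · rw [h0, Nat.cast_zero, zero_mul]
        exact mul_nonneg (Nat.cast_nonneg K) h5
      have h6 := hCm i (D.L a) (D.N a v) hav (fun l => D.s a g (y a l)) hx0 hxP
      have h7 := Real.log_le_log (h2 i h0) (h6.trans (le_max_right 1 (Cm i)))
      have h8 : (α i : ℝ) ≤ K := by exact_mod_cast hK α hα i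
      calc _ ≤ (α i : ℝ) * Real.log (max 1 (Cm i)) := mul_le_mul_of_nonneg_left h7 (Nat.cast_nonneg _)
        _ ≤ K * Real.log (max 1 (Cm i)) := mul_le_mul_of_nonneg_right h8 h5
  have h5 : ∑ i, (α i : ℝ) * Real.log (Pool.Agent.RV.mu (d i) (f i) (D.N a v) fun l => D.s a g (y a l)) ≤
      ∑ i, (if i ∈ T then -(α i * ((L i - η') * D.H a)) else 0) + K * ∑ i, Real.log (max 1 (Cm i)) := by
    rw [Finset.mul_sum, ← Finset.sum_add_distrib]
    exact Finset.sum_le_sum fun i _ => h4 i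
  have h6 : ∑ i, (if i ∈ T then -(α i * ((L i - η') * D.H a)) else 0) ≤ -((c * x - η / 2) * D.H a) := by
    have h7 : ∀ i, (if i ∈ T then -((α i : ℝ) * ((L i - η') * D.H a)) else 0) ≤ (K * η' - c * (u i * α i)) * D.H a := by
      intro i
      have h8 : (α i : ℝ) ≤ K := by exact_mod_cast hK α hα i
      by_cases hi : i ∈ T
      · rw [if_pos hi]
        have h9 : (α i : ℝ) * (c * u i) ≤ α i * L i := mul_le_mul_of_nonneg_left (hcL i hi) (Nat.cast_nonneg _)
        have h10 : (α i : ℝ) * η' ≤ K * η' := mul_le_mul_of_nonneg_right h8 hη'0.le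
        have h11 : -((α i : ℝ) * (L i - η')) ≤ K * η' - c * (u i * α i) := by linarith
        have h12 := mul_le_mul_of_nonneg_right h11 hH0
        linarith
      · rw [if_neg hi, hu i hi]
        simp only [Nat.cast_zero, zero_mul, mul_zero, sub_zero]
        positivity
    refine (Finset.sum_le_sum fun i _ => h7 i).trans ?_
    rw [← Finset.sum_mul, Finset.sum_sub_distrib, Finset.sum_const, Finset.card_univ, Fintype.card_fin, nsmul_eq_mul,
      ← Finset.mul_sum, ← neg_mul]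
    refine mul_le_mul_of_nonneg_right ?_ hH0
    have h8 : (x : ℝ) ≤ ∑ i, (u i : ℝ) * α i := by
      have : x ≤ ∑ i, u i * α i := hB hα
      exact_mod_cast this
    have h9 := mul_le_mul_of_nonneg_left h8 hc
    linarith
  have h7 : C + K * ∑ i, Real.log (max 1 (Cm i)) ≤ η / 2 * D.H a := by
    have h8 := (le_max_right _ _).trans ha3
    rw [div_mul_eq_mul_div, div_le_iff₀ hη] at h8
    linarith
  unfold gam
  rw [aeval_s63]
  have h8 : (mxn (D.N a v) fun j => D.s a g (y a j)) = mxn (D.N a v) (fun l => D.s a g (y a l)) := rfl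
  linarith

end Pool.Agent.SQ.RV
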